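import Pool.Agent.Q140.HYP.Powers
import Pool.Agent.W966.Vg.Hyper2
import Pool.Agent.W334.VH.Res

/-!
# Nondeterministic decision of the zero sets of trilinear forms
-/

set_option autoImplicit false

namespace Pool.Agent.Q140.HYP

open MvPolynomial Pool.Agent.W966.Vg

section rank

variable {K ι X Y Z : Type} [Field K] [Fintype ι]

/-- **The trilinear part of a polynomial with few multiplications.** -/
theorem rk3_of_nscomp {M : ℕ} {f : Unit → MvPolynomial ι K} (h : NSComp K ι Unit M f)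
    (ix : X → ι) (iy : Y → ι) (iz : Z → ι) (hxy : ∀ x y, ix x ≠ iy y) (hyz : ∀ y z, iy y ≠ iz z)
    (hxz : ∀ x z, ix x ≠ iz z) : Rk3 (tens ix iy iz f) (6 * M) := by
  have h' : NSComp K ι Unit M fun _ => f () := h
  obtain ⟨α, β, Q, H⟩ := third_rank h'
  refine ⟨Fin M × Fin 6, inferInstance,
    fun t x => ![Q t.1 (ix x), Q t.1 (ix x), α t.1 (ix x), β t.1 (ix x), α t.1 (ix x),
      β t.1 (ix x)] t.2,
    fun t y => ![α t.1 (iy y), β t.1 (iy y), Q t.1 (iy y), Q t.1 (iy y), β t.1 (iy y),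
      α t.1 (iy y)] t.2,
    fun t z => ![β t.1 (iz z), α t.1 (iz z), β t.1 (iz z), α t.1 (iz z), Q t.1 (iz z),
      Q t.1 (iz z)] t.2, ?_, fun x y z => ?_⟩
  · rw [Fintype.card_prod, Fintype.card_fin, Fintype.card_fin, mul_comm]
  · have h1 : tens ix iy iz f x y z = E3 (ix x) (iy y) (iz z) (f ()) :=
      (E3_coeff (hxy x y) (hyz y z) (hxz x z) (f ())).symm
    rw [h1, H, Fintype.sum_prod_type]
    refine Finset.sum_congr rfl fun s _ => ?_
    rw [Fin.sum_univ_six]
    simp only [Matrix.cons_val_zero, Matrix.cons_val_one, Matrix.cons_val]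
    ring

end rank

section general

variable {K ι X Y Z : Type} [Field K] [IsAlgClosed K] [CharZero K] [Fintype ι]

lemma closure_mono' {M M' : ℕ} (hM : M ≤ M') {f : Unit → MvPolynomial ι K}
    (h : InClosure {g | NSComp K ι Unit M g} f) : InClosure {g | NSComp K ι Unit M' g} f :=
  fun p hp => h p fun g hg => hp g (NSComp.mono hM hg)

/-- The zero set is decided, up to sets of smaller dimension, and the accepted set is not dense. -/
def Decides (t : NTree K ι) (L : ℕ) (f : MvPolynomial ι K) : Prop :=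
  (∃ g : MvPolynomial ι K, IsRelPrime f g ∧
    ∀ x, eval x f = 0 → eval x g ≠ 0 → t.Accepts x L) ∧
  ∃ h : MvPolynomial ι K, h ≠ 0 ∧ ∀ x, t.Accepts x L → eval x h = 0

/-- A cubic polynomial. -/
theorem cubic_closure (t : NTree K ι) (L : ℕ) (f : MvPolynomial ι K) (hf0 : f ≠ 0)
    (hd : f.totalDegree ≤ 3) (H : Decides t L f) :
    InClosure {g : Unit → MvPolynomial ι K | NSComp K ι Unit (9 * L + 30) g} fun _ => f := by
  obtain ⟨⟨g, hg, H1⟩, h, hh, H2⟩ := H
  refine closure_mono' ?_ (comp_ns Pool.Agent.W334.VHRes.main t f g h hf0 hg hh H1 H2)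
  interval_cases f.totalDegree <;> omega

/-- **Powers of the trilinear part of a cubic polynomial.** -/
theorem cubic_pow [Fintype X] [Fintype Y] [Fintype Z] (t : NTree K ι) (L : ℕ)
    (f : MvPolynomial ι K) (hf0 : f ≠ 0) (hd : f.totalDegree ≤ 3) (H : Decides t L f)
    (ix : X → ι) (iy : Y → ι) (iz : Z → ι) (hxy : ∀ x y, ix x ≠ iy y) (hyz : ∀ y z, iy y ≠ iz z)
    (hxz : ∀ x z, ix x ≠ iz z) (N : ℕ) :
    Rk3 (pw N (tens ix iy iz fun _ => f))
      ((N + 1) ^ Fintype.card (X × Y × Z) * (54 * L + 180) ^ N) := by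
  refine closure_pow ix iy iz _ _ (cubic_closure t L f hf0 hd H) _ (fun g hg => ?_) N
  refine (rk3_of_nscomp hg ix iy iz hxy hyz hxz).mono (by omega)

end general

section scalar

variable {K X Y Z : Type} [Field K]

lemma Rk3.of_smul {τ : X → Y → Z → K} {c : K} (hc : c ≠ 0) {R : ℕ}
    (h : Rk3 (fun x y z => c * τ x y z) R) : Rk3 τ R := by
  obtain ⟨T, _, a, b, d, hR, h⟩ := h
  refine ⟨T, _, fun t x => c⁻¹ * a t x, b, d, hR, fun x y z => ?_⟩
  have h1 : c * τ x y z = ∑ t, a t x * b t y * d t z := h x y z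
  have h2 : τ x y z = c⁻¹ * (c * τ x y z) := by field_simp
  rw [h2, h1, Finset.mul_sum]
  refine Finset.sum_congr rfl fun t _ => ?_
  ring

lemma pw_smul (N : ℕ) (c : K) (τ : X → Y → Z → K) :
    pw N (fun x y z => c * τ x y z) = fun x y z => c ^ N * pw N τ x y z := by
  funext x y z
  unfold pw
  rw [Finset.prod_mul_distrib, Finset.prod_const, Finset.card_univ, Fintype.card_fin]

end scalar

/-- **Exponents.** -/
theorem cubic_omega {K ι : Type} [Field K] [IsAlgClosed K] [CharZero K] [Fintype ι] {n : ℕ}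
    (hn : 0 < n) (t : NTree K ι) (L : ℕ) (f : MvPolynomial ι K) (hf0 : f ≠ 0)
    (hd : f.totalDegree ≤ 3) (H : Decides t L f) (ix iy iz : Fin n × Fin n → ι)
    (hxy : ∀ x y, ix x ≠ iy y) (hyz : ∀ y z, iy y ≠ iz z) (hxz : ∀ x z, ix x ≠ iz z) (c : K)
    (hc : c ≠ 0) (hf : (tens ix iy iz fun _ => f) = fun x y z => c * mmT K n x y z) :
    (n : ℝ) ^ Pool.Agent.H515R2.MMR.omega ≤ 54 * L + 180 := by
  have h0 : (n : ℝ) ^ Pool.Agent.H515R2.MMR.omega ≤ ((54 * L + 180 : ℕ) : ℝ) := by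
    refine Pool.Agent.Y538.Par.le_of_pow_le_poly (D := 1) (h := 1)
      (k := Fintype.card ((Fin n × Fin n) × (Fin n × Fin n) × (Fin n × Fin n)))
      (by positivity) (Nat.cast_nonneg _) fun N hN => ?_
    have h1 := cubic_pow t L f hf0 hd H ix iy iz hxy hyz hxz N
    rw [hf, pw_smul] at h1
    have h2 := omega_of_pw hn (h1.of_smul (pow_ne_zero N hc))
    rw [Nat.cast_one, mul_one, one_mul]
    push_cast at h2 ⊢
    refine le_trans (le_of_eq ?_) h2
    rw [← Real.rpow_natCast, ← Real.rpow_mul (Nat.cast_nonneg n), mul_comm, Real.rpow_mul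
      (Nat.cast_nonneg n), Real.rpow_natCast]
  push_cast at h0
  exact h0

end Pool.Agent.Q140.HYP
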