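import Pool.Agent.Q140.HYP.Ranks
import Pool.Agent.W239.VF.Ad
import Pool.Agent.Y538.Par.Sums

/-!
# Tensors in the Zariski closure of the tensors of small rank
-/

set_option autoImplicit false

namespace Pool.Agent.Q140.HYP

open MvPolynomial Pool.Agent.W966.Vg

section tensors

variable {K X Y Z : Type} [Field K]

/-- The tensor `τ` has rank at most `R`. -/
def Rk3 (τ : X → Y → Z → K) (R : ℕ) : Prop :=
  ∃ (T : Type) (_ : Fintype T) (a : T → X → K) (b : T → Y → K) (c : T → Z → K),
    Fintype.card T ≤ R ∧ ∀ x y z, τ x y z = ∑ t, a t x * b t y * c t z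

/-- The `N`-th power of a tensor. -/
def pw (N : ℕ) (τ : X → Y → Z → K) : (Fin N → X) → (Fin N → Y) → (Fin N → Z) → K :=
  fun x y z => ∏ i, τ (x i) (y i) (z i)

lemma Rk3.mono {τ : X → Y → Z → K} {R R' : ℕ} (h : Rk3 τ R) (hR : R ≤ R') : Rk3 τ R' := by
  obtain ⟨T, _, a, b, c, h1, h2⟩ := h
  exact ⟨T, _, a, b, c, h1.trans hR, h2⟩

lemma Rk3.pow {τ : X → Y → Z → K} {R : ℕ} (h : Rk3 τ R) (N : ℕ) : Rk3 (pw N τ) (R ^ N) := by
  classical
  obtain ⟨T, _, a, b, c, hR, h⟩ := h
  refine ⟨Fin N → T, inferInstance, fun t x => ∏ i, a (t i) (x i), fun t y => ∏ i, b (t i) (y i),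
    fun t z => ∏ i, c (t i) (z i), ?_, fun x y z => ?_⟩
  · rw [Fintype.card_fun, Fintype.card_fin]
    exact Nat.pow_le_pow_left hR N
  · unfold pw
    simp only [h]
    rw [Finset.prod_univ_sum, Fintype.piFinset_univ]
    refine Finset.sum_congr rfl fun t _ => ?_
    rw [← Finset.prod_mul_distrib, ← Finset.prod_mul_distrib]

lemma Rk3.sum {J : Type} [Fintype J] {u : J → X → Y → Z → K} (r : J → K) {R : ℕ}
    (h : ∀ j, Rk3 (u j) R) :
    Rk3 (fun x y z => ∑ j, r j * u j x y z) (Fintype.card J * R) := by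
  classical
  choose T hT a b c hR h using h
  refine ⟨Σ j, T j, inferInstance, fun t x => r t.1 * a t.1 t.2 x, fun t y => b t.1 t.2 y,
    fun t z => c t.1 t.2 z, ?_, fun x y z => ?_⟩
  · rw [Fintype.card_sigma]
    calc ∑ j, Fintype.card (T j) ≤ ∑ _j : J, R := Finset.sum_le_sum fun j _ => hR j
      _ = Fintype.card J * R := by rw [Finset.sum_const, Finset.card_univ, smul_eq_mul]
  · rw [Fintype.sum_sigma]
    refine Finset.sum_congr rfl fun j _ => ?_
    rw [h j, Finset.mul_sum]
    refine Finset.sum_congr rfl fun t _ => ?_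
    ring

end tensors

section closure

variable {K ι X Y Z : Type} [Field K] [Fintype X] [Fintype Y] [Fintype Z]

/-- The trilinear part of a polynomial. -/
noncomputable def tens (ix : X → ι) (iy : Y → ι) (iz : Z → ι) (g : Unit → MvPolynomial ι K) :
    X → Y → Z → K :=
  fun x y z => coeff (ex (ix x) (iy y) (iz z)) (g ())

/-- the number of the positions with a given value -/
def cnt (N : ℕ) [DecidableEq X] [DecidableEq Y] [DecidableEq Z]
    (p : (Fin N → X) × (Fin N → Y) × (Fin N → Z)) (q : X × Y × Z) : Fin (N + 1) :=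
  ⟨(Finset.univ.filter fun i => (p.1 i, p.2.1 i, p.2.2 i) = q).card,
    Nat.lt_succ_of_le ((Finset.card_le_univ _).trans (by rw [Fintype.card_fin]))⟩

/-- **Powers of tensors in the Zariski closure.** -/
theorem closure_pow (ix : X → ι) (iy : Y → ι) (iz : Z → ι) (S : Set (Unit → MvPolynomial ι K))
    (f : Unit → MvPolynomial ι K) (hcl : InClosure S f) (R : ℕ)
    (hS : ∀ g ∈ S, Rk3 (tens ix iy iz g) R) (N : ℕ) :
    Rk3 (pw N (tens ix iy iz f)) ((N + 1) ^ Fintype.card (X × Y × Z) * R ^ N) := by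
  classical
  let I : Type := (Fin N → X) × (Fin N → Y) × (Fin N → Z)
  let pt : (Unit → MvPolynomial ι K) → I → K := fun g p =>
    pw N (tens ix iy iz g) p.1 p.2.1 p.2.2
  let W : Submodule K (I → K) := Submodule.span K (pt '' S)
  -- the power lies in the span
  have hmem : pt f ∈ W := by
    by_contra hcon
    obtain ⟨φ, hφ1, hφ2⟩ := Submodule.exists_le_ker_of_notMem hcon
    let c : I → K := fun p => φ fun j => if p = j then 1 else 0
    have hφ : ∀ v : I → K, φ v = ∑ p, c p * v p := by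
      intro v
      rw [LinearMap.pi_apply_eq_sum_univ φ v]
      refine Finset.sum_congr rfl fun p _ => ?_
      rw [smul_eq_mul, mul_comm]
    let h : MvPolynomial (Unit × (ι →₀ ℕ)) K := ∑ p : I, C (c p) *
      ∏ i, MvPolynomial.X ((), ex (ix (p.1 i)) (iy (p.2.1 i)) (iz (p.2.2 i)))
    have hh : ∀ g : Unit → MvPolynomial ι K, eval (fun p => coeff p.2 (g p.1)) h = φ (pt g) := by
      intro g
      rw [hφ]
      simp only [h, map_sum, map_mul, map_prod, eval_C, eval_X]
      rfl
    refine hφ1 ?_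
    rw [← hh]
    refine hcl h fun g hg => ?_
    rw [hh]
    exact hφ2 (Submodule.subset_span ⟨g, hg, rfl⟩)
  -- the dimension of the span
  let Φ : ((X × Y × Z → Fin (N + 1)) → K) →ₗ[K] (I → K) :=
    LinearMap.funLeft K K fun p : I => cnt N p
  have hpt : ∀ g, pt g ∈ LinearMap.range Φ := by
    intro g
    refine ⟨fun e => ∏ q : X × Y × Z, tens ix iy iz g q.1 q.2.1 q.2.2 ^ (e q : ℕ), ?_⟩
    funext p
    show ∏ q : X × Y × Z, tens ix iy iz g q.1 q.2.1 q.2.2 ^ (cnt N p q : ℕ) =
      ∏ i, tens ix iy iz g (p.1 i) (p.2.1 i) (p.2.2 i)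
    have h1 := Finset.prod_fiberwise' (s := (Finset.univ : Finset (Fin N)))
      (g := fun i => ((p.1 i, p.2.1 i, p.2.2 i) : X × Y × Z))
      (f := fun q => tens ix iy iz g q.1 q.2.1 q.2.2)
    rw [← h1]
    refine Finset.prod_congr rfl fun q _ => ?_
    rw [Finset.prod_const]
    rfl
  obtain ⟨b, hb, hspan, hli⟩ := exists_linearIndependent K (pt '' S)
  have hfin : Finite b := hli.finite
  have : Fintype b := Fintype.ofFinite b
  have hcard : Fintype.card b ≤ (N + 1) ^ Fintype.card (X × Y × Z) := by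
    have h1 := finrank_span_eq_card hli
    rw [Subtype.range_coe] at h1
    rw [← h1, hspan]
    have h2 : Submodule.span K (pt '' S) ≤ LinearMap.range Φ := by
      refine Submodule.span_le.mpr ?_
      rintro _ ⟨g, -, rfl⟩
      exact hpt g
    refine (Submodule.finrank_mono h2).trans ((LinearMap.finrank_range_le Φ).trans ?_)
    rw [Module.finrank_fintype_fun_eq_card, Fintype.card_fun, Fintype.card_fin]
  have hmem' : pt f ∈ Submodule.span K (Set.range (Subtype.val : b → I → K)) := by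
    rw [Subtype.range_coe, hspan]
    exact hmem
  obtain ⟨c, hc⟩ := (Submodule.mem_span_range_iff_exists_fun K).mp hmem'
  have hg : ∀ j : b, ∃ g ∈ S, pt g = j := fun j => hb j.2
  choose g hgS hg using hg
  have h3 : Rk3 (fun x y z => ∑ j, c j * pw N (tens ix iy iz (g j)) x y z)
      (Fintype.card b * R ^ N) := Rk3.sum c fun j => (hS (g j) (hgS j)).pow N
  have h4 : (fun x y z => ∑ j, c j * pw N (tens ix iy iz (g j)) x y z) =
      pw N (tens ix iy iz f) := by
    funext x y z
    have h5 : pt f (x, y, z) = pw N (tens ix iy iz f) x y z := rfl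
    rw [← h5, ← hc]
    simp only [Finset.sum_apply, Pi.smul_apply, smul_eq_mul]
    refine Finset.sum_congr rfl fun j _ => ?_
    rw [← hg j]
  rw [h4] at h3
  exact h3.mono (Nat.mul_le_mul_right _ hcard)

end closure

section mm

variable {K : Type} [Field K] [CharZero K]

/-- The tensor of matrix multiplication. -/
def mmT (K : Type) [Field K] (n : ℕ) : Fin n × Fin n → Fin n × Fin n → Fin n × Fin n → K :=
  fun x y z => if x.2 = y.1 ∧ y.2 = z.1 ∧ z.2 = x.1 then 1 else 0

lemma pw_mmT (n N : ℕ) (i j j' k k' l : Fin N → Fin n) :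
    pw N (mmT K n) (fun s => (i s, j s)) (fun s => (j' s, k s)) (fun s => (k' s, l s)) =
      if j = j' ∧ k = k' ∧ l = i then 1 else 0 := by
  unfold pw mmT
  by_cases h : j = j' ∧ k = k' ∧ l = i
  · rw [if_pos h]
    obtain ⟨rfl, rfl, rfl⟩ := h
    simp
  · rw [if_neg h]
    have h1 : ∃ s, ¬ (j s = j' s ∧ k s = k' s ∧ l s = i s) := by
      by_contra hcon
      push Not at hcon
      exact h ⟨funext fun s => (hcon s).1, funext fun s => (hcon s).2.1,
        funext fun s => (hcon s).2.2⟩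
    obtain ⟨s, hs⟩ := h1
    exact Finset.prod_eq_zero (Finset.mem_univ s) (if_neg hs)

lemma omega_of_pw {n N R : ℕ} (hn : 0 < n) (h : Rk3 (pw N (mmT K n)) R) :
    ((n ^ N : ℕ) : ℝ) ^ Pool.Agent.H515R2.MMR.omega ≤ R := by
  classical
  obtain ⟨T, _, a, b, c, hR, h⟩ := h
  let e : (Fin N → Fin n) ≃ Fin (n ^ N) := finFunctionFinEquiv
  let eT := Fintype.equivFin T
  refine le_trans (Pool.Agent.W239.VF.main K (n ^ N) (Fintype.card T) 0
    (fun t i j => PowerSeries.C (a (eT.symm t) fun s => (e.symm i s, e.symm j s)))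
    (fun t i j => PowerSeries.C (b (eT.symm t) fun s => (e.symm i s, e.symm j s)))
    (fun t i j => PowerSeries.C (c (eT.symm t) fun s => (e.symm i s, e.symm j s)))
    (pow_pos hn N) ?_) (by exact_mod_cast hR)
  intro i j j' k k' l d hd
  obtain rfl : d = 0 := Nat.le_zero.mp hd
  simp only [← map_mul, ← map_sum]
  rw [PowerSeries.coeff_zero_eq_constantCoeff_apply, PowerSeries.constantCoeff_C]
  rw [Equiv.sum_comp eT.symm fun t => (a t fun s => (e.symm i s, e.symm j s)) *
    (b t fun s => (e.symm j' s, e.symm k s)) * (c t fun s => (e.symm k' s, e.symm l s)), ← h,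
    pw_mmT]
  simp only [EmbeddingLike.apply_eq_iff_eq, true_and]

/-- **From the Zariski closure to the exponent.** -/
theorem closure_omega {ι : Type} {n R : ℕ} (hn : 0 < n) (ix iy iz : Fin n × Fin n → ι)
    (S : Set (Unit → MvPolynomial ι K)) (f : Unit → MvPolynomial ι K) (hcl : InClosure S f)
    (hS : ∀ g ∈ S, Rk3 (tens ix iy iz g) R) (hf : tens ix iy iz f = mmT K n) :
    (n : ℝ) ^ Pool.Agent.H515R2.MMR.omega ≤ R := by
  refine Pool.Agent.Y538.Par.le_of_pow_le_poly (D := 1) (h := 1)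
    (k := Fintype.card ((Fin n × Fin n) × (Fin n × Fin n) × (Fin n × Fin n)))
    (by positivity) (Nat.cast_nonneg R) fun N hN => ?_
  have h1 := closure_pow ix iy iz S f hcl R hS N
  rw [hf] at h1
  have h2 := omega_of_pw hn h1
  push_cast at h2
  rw [Nat.cast_one, mul_one, one_mul]
  refine le_trans (le_of_eq ?_) h2
  rw [← Real.rpow_natCast, ← Real.rpow_mul (Nat.cast_nonneg n), mul_comm, Real.rpow_mul
    (Nat.cast_nonneg n), Real.rpow_natCast]

end mm

end Pool.Agent.Q140.HYP
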