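import Pool.Agent.W966.Vg.Defs

/-!
# Cubic parts of polynomials which are computed with few multiplications
-/

set_option autoImplicit false

namespace Pool.Agent.Q140.HYP

open MvPolynomial Pool.Agent.W966.Vg

variable {K ι : Type} [Field K]

/-- the value at the origin -/
noncomputable def ev : MvPolynomial ι K →ₐ[K] K := aeval fun _ => 0

/-- first derivatives at the origin -/
noncomputable def E1 (i : ι) : MvPolynomial ι K →ₗ[K] K :=
  (ev (K := K) (ι := ι)).toLinearMap ∘ₗ (pderiv i : Derivation K (MvPolynomial ι K) _).toLinearMap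

/-- second derivatives at the origin -/
noncomputable def E2 (i j : ι) : MvPolynomial ι K →ₗ[K] K :=
  E1 i ∘ₗ (pderiv j : Derivation K (MvPolynomial ι K) _).toLinearMap

/-- third derivatives at the origin -/
noncomputable def E3 (i j k : ι) : MvPolynomial ι K →ₗ[K] K :=
  E2 i j ∘ₗ (pderiv k : Derivation K (MvPolynomial ι K) _).toLinearMap

lemma E1_apply (i : ι) (p : MvPolynomial ι K) : E1 i p = ev (pderiv i p) := rfl
lemma E2_apply (i j : ι) (p : MvPolynomial ι K) : E2 i j p = ev (pderiv i (pderiv j p)) := rfl
lemma E3_apply (i j k : ι) (p : MvPolynomial ι K) :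
    E3 i j k p = ev (pderiv i (pderiv j (pderiv k p))) := rfl

lemma E2_mul (i j : ι) (p q : MvPolynomial ι K) :
    E2 i j (p * q) = ev p * E2 i j q + ev q * E2 i j p + (E1 i p * E1 j q + E1 i q * E1 j p) := by
  simp only [E2_apply, E1_apply, pderiv_mul, map_add, map_mul]
  ring

lemma E3_mul (i j k : ι) (p q : MvPolynomial ι K) :
    E3 i j k (p * q) = ev p * E3 i j k q + ev q * E3 i j k p +
      (E1 i p * E2 j k q + E1 j p * E2 i k q + E1 k p * E2 i j q +
        (E1 i q * E2 j k p + E1 j q * E2 i k p + E1 k q * E2 i j p)) := by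
  simp only [E3_apply, E2_apply, E1_apply, pderiv_mul, map_add, map_mul]
  ring

lemma E2_C (i j : ι) (c : K) : E2 i j (C c) = 0 := by
  simp [E2_apply]

lemma E2_X (i j k : ι) : E2 i j (X k : MvPolynomial ι K) = 0 := by
  rw [E2_apply]
  by_cases h : k = j
  · subst h
    rw [pderiv_X_self, Derivation.map_one_eq_zero, map_zero]
  · rw [pderiv_X_of_ne h, map_zero, map_zero]

section val

variable [Fintype ι]

lemma val_eq (f : LF K ι) (l : ℕ) (g : ℕ → MvPolynomial ι K) :
    f.val X l g = C f.c + ∑ i, f.x i • (X i : MvPolynomial ι K) +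
      ∑ s ∈ Finset.range l, f.r s • g s := by
  unfold LF.val
  simp only [MvPolynomial.algebraMap_eq, MvPolynomial.smul_eq_C_mul]

lemma E2_val (i j : ι) (f : LF K ι) (l : ℕ) (g : ℕ → MvPolynomial ι K) :
    E2 i j (f.val X l g) = ∑ s ∈ Finset.range l, f.r s * E2 i j (g s) := by
  rw [val_eq, map_add, map_add, E2_C, map_sum, map_sum]
  simp only [map_smul, E2_X, mul_zero, Finset.sum_const_zero, zero_add, smul_eq_mul]

lemma E3_val (i j k : ι) (f : LF K ι) (l : ℕ) (g : ℕ → MvPolynomial ι K) :
    E3 i j k (f.val X l g) = ∑ s ∈ Finset.range l, f.r s * E3 i j k (g s) := by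
  have hC : ∀ c : K, E3 i j k (C c) = 0 := fun c => by simp [E3_apply]
  have hX : ∀ v : ι, E3 i j k (X v : MvPolynomial ι K) = 0 := by
    intro v
    rw [E3_apply]
    by_cases h : v = k
    · subst h
      rw [pderiv_X_self, Derivation.map_one_eq_zero, map_zero, map_zero]
    · rw [pderiv_X_of_ne h, map_zero, map_zero, map_zero]
  rw [val_eq, map_add, map_add, hC, map_sum, map_sum]
  simp only [map_smul, hX, mul_zero, Finset.sum_const_zero, zero_add, smul_eq_mul]

/-- **The third derivatives at the origin.** -/
theorem third_rank {M : ℕ} {f : MvPolynomial ι K} (h : NSComp K ι Unit M fun _ => f) :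
    ∃ α β Q : Fin M → ι → K, ∀ x y z, E3 x y z f = ∑ s,
      (Q s x * (α s y * β s z + β s y * α s z) + Q s y * (α s x * β s z + β s x * α s z) +
        Q s z * (α s x * β s y + β s x * α s y)) := by
  classical
  obtain ⟨a, b, o, g, hg, ho⟩ := h
  let A : ℕ → MvPolynomial ι K := fun s => (a s).val X s g
  let B : ℕ → MvPolynomial ι K := fun s => (b s).val X s g
  have hg' : ∀ r < M, g r = A r * B r := hg
  let P : Fin M → ι → ι → K := fun s i j => E1 i (A s) * E1 j (B s) + E1 i (B s) * E1 j (A s)
  let V2 : Submodule K (ι → ι → K) := Submodule.span K (Set.range P)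
  have hval2 : ∀ (f : LF K ι) (l : ℕ), (∀ s < l, (fun i j => E2 i j (g s)) ∈ V2) →
      (fun i j => E2 i j (f.val X l g)) ∈ V2 := by
    intro f l hs
    have e : (fun i j => E2 i j (f.val X l g)) =
        ∑ s ∈ Finset.range l, f.r s • (fun i j => E2 i j (g s)) := by
      funext i j
      rw [E2_val]
      simp only [Finset.sum_apply, Pi.smul_apply, smul_eq_mul]
    rw [e]
    exact Submodule.sum_mem _ fun s hs' => Submodule.smul_mem _ _ (hs s (Finset.mem_range.mp hs'))
  have h2 : ∀ s < M, (fun i j => E2 i j (g s)) ∈ V2 := by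
    intro s
    induction s using Nat.strong_induction_on with
    | _ s ih =>
      intro hs
      have hA := hval2 (a s) s fun u hu => ih u hu (hu.trans hs)
      have hB := hval2 (b s) s fun u hu => ih u hu (hu.trans hs)
      have e : (fun i j => E2 i j (g s)) = ev (A s) • (fun i j => E2 i j (B s)) +
          ev (B s) • (fun i j => E2 i j (A s)) + P ⟨s, hs⟩ := by
        funext i j
        rw [hg' s hs, E2_mul]
        rfl
      rw [e]
      exact Submodule.add_mem _ (Submodule.add_mem _ (Submodule.smul_mem _ _ hB)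
        (Submodule.smul_mem _ _ hA)) (Submodule.subset_span ⟨_, rfl⟩)
  let Six : Fin M → ι → ι → ι → K := fun s i j k =>
    E1 i (A s) * E2 j k (B s) + E1 j (A s) * E2 i k (B s) + E1 k (A s) * E2 i j (B s) +
        (E1 i (B s) * E2 j k (A s) + E1 j (B s) * E2 i k (A s) + E1 k (B s) * E2 i j (A s))
  let V3 : Submodule K (ι → ι → ι → K) := Submodule.span K (Set.range Six)
  have hval3 : ∀ (f : LF K ι) (l : ℕ), (∀ s < l, (fun i j k => E3 i j k (g s)) ∈ V3) →
      (fun i j k => E3 i j k (f.val X l g)) ∈ V3 := by
    intro f l hs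
    have e : (fun i j k => E3 i j k (f.val X l g)) =
        ∑ s ∈ Finset.range l, f.r s • (fun i j k => E3 i j k (g s)) := by
      funext i j k
      rw [E3_val]
      simp only [Finset.sum_apply, Pi.smul_apply, smul_eq_mul]
    rw [e]
    exact Submodule.sum_mem _ fun s hs' => Submodule.smul_mem _ _ (hs s (Finset.mem_range.mp hs'))
  have h3 : ∀ s < M, (fun i j k => E3 i j k (g s)) ∈ V3 := by
    intro s
    induction s using Nat.strong_induction_on with
    | _ s ih =>
      intro hs
      have hA := hval3 (a s) s fun u hu => ih u hu (hu.trans hs)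
      have hB := hval3 (b s) s fun u hu => ih u hu (hu.trans hs)
      have e : (fun i j k => E3 i j k (g s)) = ev (A s) • (fun i j k => E3 i j k (B s)) +
          ev (B s) • (fun i j k => E3 i j k (A s)) + Six ⟨s, hs⟩ := by
        funext i j k
        rw [hg' s hs, E3_mul]
        rfl
      rw [e]
      exact Submodule.add_mem _ (Submodule.add_mem _ (Submodule.smul_mem _ _ hB)
        (Submodule.smul_mem _ _ hA)) (Submodule.subset_span ⟨_, rfl⟩)
  have hf : (fun i j k => E3 i j k f) ∈ V3 := by
    have e : f = (o ()).val X M g := ho ()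
    rw [e]
    exact hval3 (o ()) M h3
  obtain ⟨w, hw⟩ := (Submodule.mem_span_range_iff_exists_fun K).mp hf
  have hA2 : ∀ t : Fin M, ∃ v : Fin M → K, ∑ s, v s • P s = fun i j => E2 i j (A t) := fun t =>
    (Submodule.mem_span_range_iff_exists_fun K).mp
      (hval2 (a t) t fun u hu => h2 u (hu.trans t.2))
  have hB2 : ∀ t : Fin M, ∃ v : Fin M → K, ∑ s, v s • P s = fun i j => E2 i j (B t) := fun t =>
    (Submodule.mem_span_range_iff_exists_fun K).mp
      (hval2 (b t) t fun u hu => h2 u (hu.trans t.2))
  choose va hva using hA2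
  choose vb hvb using hB2
  have hva' : ∀ (t : Fin M) i j, E2 i j (A t) = ∑ s, va t s * P s i j := by
    intro t i j
    have := congrFun (congrFun (hva t) i) j
    rw [← this]
    simp only [Finset.sum_apply, Pi.smul_apply, smul_eq_mul]
  have hvb' : ∀ (t : Fin M) i j, E2 i j (B t) = ∑ s, vb t s * P s i j := by
    intro t i j
    have := congrFun (congrFun (hvb t) i) j
    rw [← this]
    simp only [Finset.sum_apply, Pi.smul_apply, smul_eq_mul]
  refine ⟨fun s i => E1 i (A s), fun s i => E1 i (B s),
    fun s i => ∑ t, w t * (vb t s * E1 i (A t) + va t s * E1 i (B t)), fun x y z => ?_⟩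
  have h4 : E3 x y z f = ∑ t, w t * Six t x y z := by
    have := congrFun (congrFun (congrFun hw x) y) z
    rw [← this]
    simp only [Finset.sum_apply, Pi.smul_apply, smul_eq_mul]
  rw [h4]
  have h5 : ∀ t, w t * Six t x y z = ∑ s,
      (w t * (vb t s * E1 x (A t) + va t s * E1 x (B t)) * P s y z +
        w t * (vb t s * E1 y (A t) + va t s * E1 y (B t)) * P s x z +
        w t * (vb t s * E1 z (A t) + va t s * E1 z (B t)) * P s x y) := by
    intro t
    simp only [Six, hva', hvb', Finset.mul_sum, ← Finset.sum_add_distrib]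
    refine Finset.sum_congr rfl fun s _ => ?_
    ring
  simp only [h5]
  rw [Finset.sum_comm]
  refine Finset.sum_congr rfl fun s _ => ?_
  rw [Finset.sum_add_distrib, Finset.sum_add_distrib, ← Finset.sum_mul, ← Finset.sum_mul,
    ← Finset.sum_mul]

end val

/-! ### Coefficients -/

open Classical in
lemma ev_monomial (s : ι →₀ ℕ) (c : K) : ev (monomial s c) = if s = 0 then c else 0 := by
  classical
  unfold ev
  rw [aeval_monomial]
  by_cases h : s = 0
  · subst h
    simp
  · rw [if_neg h]
    obtain ⟨i, hi⟩ := Finsupp.ne_iff.mp h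
    rw [Finsupp.zero_apply] at hi
    rw [Finsupp.prod, Finset.prod_eq_zero (Finsupp.mem_support_iff.mpr hi) (zero_pow hi), mul_zero]

/-- the exponent of the monomial `X x * X y * X z` -/
noncomputable def ex (x y z : ι) : ι →₀ ℕ :=
  Finsupp.single x 1 + Finsupp.single y 1 + Finsupp.single z 1

open Classical in
lemma E3_monomial {x y z : ι} (hxy : x ≠ y) (hyz : y ≠ z) (hxz : x ≠ z) (m : ι →₀ ℕ) (c : K) :
    E3 x y z (monomial m c) = if m = ex x y z then c else 0 := by
  classical
  rw [E3_apply, pderiv_monomial, pderiv_monomial, pderiv_monomial, ev_monomial]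
  by_cases h : m = ex x y z
  · rw [if_pos h, h]
    have e0 : ex x y z - Finsupp.single z 1 - Finsupp.single y 1 - Finsupp.single x 1 = 0 := by
      ext i
      simp only [ex, Finsupp.coe_tsub, Pi.sub_apply, Finsupp.coe_add, Pi.add_apply,
        Finsupp.zero_apply]
      omega
    rw [if_pos e0]
    simp [ex, Finsupp.single_apply, hxy, hyz, hxz, hxy.symm, hyz.symm, hxz.symm]
  · rw [if_neg h]
    split_ifs with h0
    · have hle : ∀ i, m i ≤ ex x y z i := by
        intro i
        have := DFunLike.congr_fun h0 i
        simp only [Finsupp.coe_tsub, Pi.sub_apply, Finsupp.zero_apply] at this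
        simp only [ex, Finsupp.coe_add, Pi.add_apply]
        omega
      have hz : m x = 0 ∨ m y = 0 ∨ m z = 0 := by
        by_contra hcon
        push Not at hcon
        refine h (Finsupp.ext fun i => le_antisymm (hle i) ?_)
        simp only [ex, Finsupp.coe_add, Pi.add_apply, Finsupp.single_apply]
        by_cases h1 : x = i
        · subst h1
          rw [if_pos rfl, if_neg hxy.symm, if_neg hxz.symm]
          omega
        · by_cases h2 : y = i
          · subst h2
            rw [if_neg hxy, if_pos rfl, if_neg hyz.symm]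
            omega
          · by_cases h3 : z = i
            · subst h3
              rw [if_neg hxz, if_neg hyz, if_pos rfl]
              omega
            · rw [if_neg h1, if_neg h2, if_neg h3]
              omega
      rcases hz with hz | hz | hz
      · simp [hz]
      · simp [hz]
      · simp [hz]
    · rfl

/-- third derivatives are coefficients -/
lemma E3_coeff {x y z : ι} (hxy : x ≠ y) (hyz : y ≠ z) (hxz : x ≠ z) (f : MvPolynomial ι K) :
    E3 x y z f = coeff (ex x y z) f := by
  classical
  conv_lhs => rw [f.as_sum]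
  rw [map_sum]
  simp only [E3_monomial hxy hyz hxz]
  rw [Finset.sum_ite_eq' f.support (ex x y z) fun m => coeff m f]
  split_ifs with h
  · rfl
  · exact (notMem_support_iff.mp h).symm

end Pool.Agent.Q140.HYP
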