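import Pool.Agent.Q140.HYP.Main

/-!
# The traces of products of three matrices
-/

set_option autoImplicit false

namespace Pool.Agent.Q140.HYP

open MvPolynomial Pool.Agent.W966.Vg

section monomials

variable {K ι : Type} [Field K] [DecidableEq ι]

lemma ev_X (u : ι) : ev (X u : MvPolynomial ι K) = 0 := by
  simp [ev]

lemma E1_X (p u : ι) : E1 p (X u : MvPolynomial ι K) = if u = p then 1 else 0 := by
  rw [E1_apply]
  by_cases h : u = p
  · subst h
    rw [pderiv_X_self, map_one, if_pos rfl]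
  · rw [pderiv_X_of_ne h, map_zero, if_neg h]

lemma E2_XX (p q u v : ι) : E2 p q (X u * X v : MvPolynomial ι K) =
    (if u = p then 1 else 0) * (if v = q then 1 else 0) +
      (if v = p then 1 else 0) * (if u = q then 1 else 0) := by
  rw [E2_mul, ev_X, ev_X, zero_mul, zero_mul, zero_add, zero_add]
  simp only [E1_X]

lemma E3_XXX (p q r u v w : ι) : E3 p q r (X u * X v * X w : MvPolynomial ι K) =
    (if w = p then 1 else 0) * ((if u = q then 1 else 0) * (if v = r then 1 else 0) +
      (if v = q then 1 else 0) * (if u = r then 1 else 0)) +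
    (if w = q then 1 else 0) * ((if u = p then 1 else 0) * (if v = r then 1 else 0) +
      (if v = p then 1 else 0) * (if u = r then 1 else 0)) +
    (if w = r then 1 else 0) * ((if u = p then 1 else 0) * (if v = q then 1 else 0) +
      (if v = p then 1 else 0) * (if u = q then 1 else 0)) := by
  have h0 : ev (X u * X v : MvPolynomial ι K) = 0 := by rw [map_mul, ev_X, zero_mul]
  have h1 : ∀ i, E1 i (X u * X v : MvPolynomial ι K) = 0 := fun i => by
    rw [E1_apply, pderiv_mul, map_add, map_mul, map_mul, ev_X, ev_X, mul_zero, zero_mul, add_zero]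
  rw [E3_mul, h0, ev_X]
  simp only [E2_XX, E1_X, h1, zero_mul, zero_add]

end monomials

section traces

variable {K : Type} [Field K] {n : ℕ}

lemma cyc_sum (p q r : Fin n × Fin n) :
    ∑ i, ∑ j, ∑ k, (if (i, j) = p then (1 : K) else 0) * (if (j, k) = q then 1 else 0) *
      (if (k, i) = r then 1 else 0) = mmT K n p q r := by
  obtain ⟨p1, p2⟩ := p
  obtain ⟨q1, q2⟩ := q
  obtain ⟨r1, r2⟩ := r
  unfold mmT
  simp only [Prod.mk.injEq]
  by_cases h : p2 = q1 ∧ q2 = r1 ∧ r2 = p1
  · rw [if_pos h]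
    obtain ⟨rfl, rfl, rfl⟩ := h
    rw [Finset.sum_eq_single r2, Finset.sum_eq_single p2, Finset.sum_eq_single q2]
    · simp
    · intro k _ hk
      simp [hk]
    · simp
    · intro j _ hj
      simp [hj]
    · simp
    · intro i _ hi
      simp [hi]
    · simp
  · rw [if_neg h]
    refine Finset.sum_eq_zero fun i _ => Finset.sum_eq_zero fun j _ =>
      Finset.sum_eq_zero fun k _ => ?_
    by_cases h1 : i = p1 ∧ j = p2
    · by_cases h2 : j = q1 ∧ k = q2
      · by_cases h3 : k = r1 ∧ i = r2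
        · exact absurd ⟨h1.2.symm.trans h2.1, h2.2.symm.trans h3.1, h3.2.symm.trans h1.1⟩ h
        · rw [if_neg h3, mul_zero]
      · rw [if_neg h2, mul_zero, zero_mul]
    · rw [if_neg h1, zero_mul, zero_mul]

/-- The `s`-th matrix. -/
def mat {s : ℕ} (x : Fin s × Fin n × Fin n → K) (t : Fin s) : Matrix (Fin n) (Fin n) K :=
  Matrix.of fun i j => x (t, i, j)

variable (K n) in
/-- The polynomial `tr (A * B * C)`. -/
noncomputable def tr3 : MvPolynomial (Fin 3 × Fin n × Fin n) K :=
  ∑ i, ∑ j, ∑ k, X (0, i, j) * X (1, j, k) * X (2, k, i)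

variable (K n) in
/-- The polynomial `tr (A ^ 3)`. -/
noncomputable def trc : MvPolynomial (Fin n × Fin n) K :=
  ∑ i, ∑ j, ∑ k, X (i, j) * X (j, k) * X (k, i)

lemma trace3 (A B C : Matrix (Fin n) (Fin n) K) :
    (A * B * C).trace = ∑ i, ∑ j, ∑ k, A i j * B j k * C k i := by
  unfold Matrix.trace
  refine Finset.sum_congr rfl fun i _ => ?_
  rw [Matrix.diag_apply, Matrix.mul_apply]
  simp only [Matrix.mul_apply, Finset.sum_mul]
  rw [Finset.sum_comm]

lemma eval_tr3 (x : Fin 3 × Fin n × Fin n → K) :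
    eval x (tr3 K n) = (mat x 0 * mat x 1 * mat x 2).trace := by
  rw [trace3]
  simp only [tr3, map_sum, map_mul, eval_X]
  rfl

lemma eval_trc (A : Matrix (Fin n) (Fin n) K) :
    eval (fun p => A p.1 p.2) (trc K n) = (A ^ 3).trace := by
  rw [pow_succ, pow_succ, pow_one, trace3]
  simp only [trc, map_sum, map_mul, eval_X]

lemma degree_tr3 : (tr3 K n).totalDegree ≤ 3 := by
  unfold tr3
  refine totalDegree_finsetSum_le fun i _ => totalDegree_finsetSum_le fun j _ =>
    totalDegree_finsetSum_le fun k _ => ?_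
  refine (totalDegree_mul _ _).trans ?_
  have h1 := totalDegree_mul (X (0, i, j) : MvPolynomial (Fin 3 × Fin n × Fin n) K) (X (1, j, k))
  rw [totalDegree_X, totalDegree_X] at h1
  rw [totalDegree_X]
  omega

lemma degree_trc : (trc K n).totalDegree ≤ 3 := by
  unfold trc
  refine totalDegree_finsetSum_le fun i _ => totalDegree_finsetSum_le fun j _ =>
    totalDegree_finsetSum_le fun k _ => ?_
  refine (totalDegree_mul _ _).trans ?_
  have h1 := totalDegree_mul (X (i, j) : MvPolynomial (Fin n × Fin n) K) (X (j, k))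
  rw [totalDegree_X, totalDegree_X] at h1
  rw [totalDegree_X]
  omega

lemma tens_tr3 : (tens (fun p => (0, p)) (fun p => (1, p)) (fun p => (2, p)) fun _ => tr3 K n) =
    fun x y z => (1 : K) * mmT K n x y z := by
  funext p q r
  rw [one_mul]
  show coeff (ex ((0, p) : Fin 3 × Fin n × Fin n) (1, q) (2, r)) (tr3 K n) = _
  rw [← E3_coeff (by simp) (by simp) (by simp), tr3]
  simp only [map_sum, E3_XXX]
  rw [← cyc_sum]
  refine Finset.sum_congr rfl fun i _ => Finset.sum_congr rfl fun j _ =>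
    Finset.sum_congr rfl fun k _ => ?_
  simp only [Prod.mk.injEq]
  have h01 : ¬ ((0 : Fin 3) = 1) := by decide
  have h10 : ¬ ((1 : Fin 3) = 0) := by decide
  have h02 : ¬ ((0 : Fin 3) = 2) := by decide
  have h20 : ¬ ((2 : Fin 3) = 0) := by decide
  have h12 : ¬ ((1 : Fin 3) = 2) := by decide
  have h21 : ¬ ((2 : Fin 3) = 1) := by decide
  simp only [h01, h10, h02, h20, h12, h21, false_and, true_and, if_false, zero_mul, mul_zero,
    add_zero, zero_add]
  ring

lemma tens_trc {m : ℕ} (b : Fin 3 → Fin m → Fin n) (hb : ∀ s, Function.Injective (b s))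
    (hd : ∀ s t i j, s ≠ t → b s i ≠ b t j) :
    (tens (fun p : Fin m × Fin m => (b 0 p.1, b 1 p.2)) (fun p => (b 1 p.1, b 2 p.2))
      (fun p => (b 2 p.1, b 0 p.2)) fun _ => trc K n) = fun x y z => (3 : K) * mmT K m x y z := by
  funext p q r
  have e01 := fun i j => hd 0 1 i j (by decide)
  have e10 := fun i j => hd 1 0 i j (by decide)
  have e02 := fun i j => hd 0 2 i j (by decide)
  have e20 := fun i j => hd 2 0 i j (by decide)
  have e12 := fun i j => hd 1 2 i j (by decide)
  have e21 := fun i j => hd 2 1 i j (by decide)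
  show coeff (ex (b 0 p.1, b 1 p.2) (b 1 q.1, b 2 q.2) (b 2 r.1, b 0 r.2)) (trc K n) = _
  rw [← E3_coeff (by simp [e01]) (by simp [e12]) (by simp [e02]), trc]
  simp only [map_sum, E3_XXX]
  have h1 : ∀ u v w : Fin n × Fin n,
      ∑ i, ∑ j, ∑ k, (if (i, j) = u then (1 : K) else 0) * (if (j, k) = v then 1 else 0) *
        (if (k, i) = w then 1 else 0) = mmT K n u v w := fun u v w => cyc_sum u v w
  have h2 : ∀ (u v w : Fin n × Fin n), ∑ i, ∑ j, ∑ k,
      ((if (k, i) = u then (1 : K) else 0) * ((if (i, j) = v then 1 else 0) *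
        (if (j, k) = w then 1 else 0) + (if (j, k) = v then 1 else 0) *
          (if (i, j) = w then 1 else 0)) +
      (if (k, i) = v then 1 else 0) * ((if (i, j) = u then 1 else 0) *
        (if (j, k) = w then 1 else 0) + (if (j, k) = u then 1 else 0) *
          (if (i, j) = w then 1 else 0)) +
      (if (k, i) = w then 1 else 0) * ((if (i, j) = u then 1 else 0) *
        (if (j, k) = v then 1 else 0) + (if (j, k) = u then 1 else 0) *
          (if (i, j) = v then 1 else 0))) =
      mmT K n v w u + mmT K n w v u + mmT K n u w v + mmT K n w u v + mmT K n u v w +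
        mmT K n v u w := by
    intro u v w
    rw [← h1 v w u, ← h1 w v u, ← h1 u w v, ← h1 w u v, ← h1 u v w, ← h1 v u w]
    simp only [← Finset.sum_add_distrib]
    refine Finset.sum_congr rfl fun i _ => Finset.sum_congr rfl fun j _ =>
      Finset.sum_congr rfl fun k _ => ?_
    ring
  rw [h2]
  have i0 : ∀ i j, b 0 i = b 0 j ↔ i = j := fun i j => (hb 0).eq_iff
  have i1 : ∀ i j, b 1 i = b 1 j ↔ i = j := fun i j => (hb 1).eq_iff
  have i2 : ∀ i j, b 2 i = b 2 j ↔ i = j := fun i j => (hb 2).eq_iff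
  unfold mmT
  simp only [e01, e10, e02, e20, e12, e21, i0, i1, i2, false_and, and_false, if_false, add_zero]
  by_cases h : p.2 = q.1 ∧ q.2 = r.1 ∧ r.2 = p.1
  · rw [if_pos h, if_pos ⟨h.2.1, h.2.2, h.1⟩, if_pos ⟨h.2.2, h.1, h.2.1⟩]
    norm_num
  · rw [if_neg h, if_neg fun h' => h ⟨h'.2.2, h'.1, h'.2.1⟩,
      if_neg fun h' => h ⟨h'.2.1, h'.2.2, h'.1⟩]
    norm_num

lemma ne_zero_of_tens {ι X Y Z : Type} {ix : X → ι} {iy : Y → ι} {iz : Z → ι}
    {f : MvPolynomial ι K} {x : X} {y : Y} {z : Z}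
    (h : tens ix iy iz (fun _ => f) x y z ≠ 0) : f ≠ 0 := by
  rintro rfl
  exact h (coeff_zero _)

lemma mmT_diag (i : Fin n) : mmT K n (i, i) (i, i) (i, i) = 1 := by
  unfold mmT
  simp

end traces

section lower

open Pool.Agent.H515R2.MMR

variable {K : Type} [Field K] [IsAlgClosed K] [CharZero K] {n : ℕ}

/-- **Deciding `tr (A * B * C) = 0`.** -/
theorem tr3_lower (hn : 0 < n) (t : NTree K (Fin 3 × Fin n × Fin n)) (L : ℕ)
    (H : Decides t L (tr3 K n)) : (n : ℝ) ^ omega ≤ 54 * L + 180 := by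
  have h1 := tens_tr3 (K := K) (n := n)
  refine cubic_omega hn t L (tr3 K n) ?_ degree_tr3 H _ _ _ (fun x y => by simp)
    (fun y z => by simp) (fun x z => by simp) 1 one_ne_zero h1
  let i : Fin n := ⟨0, hn⟩
  refine ne_zero_of_tens (x := (i, i)) (y := (i, i)) (z := (i, i)) (ix := fun p => (0, p))
    (iy := fun p => (1, p)) (iz := fun p => (2, p)) ?_
  rw [h1]
  show (1 : K) * mmT K n (i, i) (i, i) (i, i) ≠ 0
  rw [mmT_diag, one_mul]
  exact one_ne_zero

/-- **Deciding `tr (A ^ 3) = 0`.** -/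
theorem trc_lower {m : ℕ} (hm : 0 < m) (hmn : 3 * m ≤ n) (t : NTree K (Fin n × Fin n)) (L : ℕ)
    (H : Decides t L (trc K n)) : (m : ℝ) ^ omega ≤ 54 * L + 180 := by
  let b : Fin 3 → Fin m → Fin n := fun s i => ⟨s * m + i, by
    have h1 := i.2
    have h2 : (s : ℕ) ≤ 2 := by omega
    have h3 : (s : ℕ) * m ≤ 2 * m := Nat.mul_le_mul_right m h2
    omega⟩
  have hbv : ∀ s i, ((b s i : Fin n) : ℕ) = s * m + i := fun s i => rfl
  have hb : ∀ s, Function.Injective (b s) := fun s i j h => by
    have := congrArg Fin.val h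
    rw [hbv, hbv] at this
    exact Fin.ext (by omega)
  have hd : ∀ s t i j, s ≠ t → b s i ≠ b t j := by
    intro s t i j hst h
    have h1 := congrArg Fin.val h
    rw [hbv, hbv] at h1
    apply hst
    have h2 : ((s : ℕ) * m + i) / m = s := by
      rw [mul_comm, Nat.mul_add_div hm, Nat.div_eq_of_lt i.2, add_zero]
    have h3 : ((t : ℕ) * m + j) / m = t := by
      rw [mul_comm, Nat.mul_add_div hm, Nat.div_eq_of_lt j.2, add_zero]
    rw [h1, h3] at h2
    exact Fin.ext h2.symm
  have h1 := tens_trc (K := K) b hb hd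
  refine cubic_omega hm t L (trc K n) ?_ degree_trc H _ _ _ (fun x y => ?_)
    (fun y z => ?_) (fun x z => ?_) 3 (by norm_num) h1
  · let i : Fin m := ⟨0, hm⟩
    refine ne_zero_of_tens (x := (i, i)) (y := (i, i)) (z := (i, i))
      (ix := fun p : Fin m × Fin m => (b 0 p.1, b 1 p.2)) (iy := fun p => (b 1 p.1, b 2 p.2))
      (iz := fun p => (b 2 p.1, b 0 p.2)) ?_
    rw [h1]
    show (3 : K) * mmT K m (i, i) (i, i) (i, i) ≠ 0
    rw [mmT_diag, mul_one]
    norm_num
  · intro h
    exact hd 0 1 _ _ (by decide) (congrArg Prod.fst h)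
  · intro h
    exact hd 1 2 _ _ (by decide) (congrArg Prod.fst h)
  · intro h
    exact hd 0 2 _ _ (by decide) (congrArg Prod.fst h)

end lower

end Pool.Agent.Q140.HYP
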