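import Pool.Agent.Q140.HYP.Trace

/-!
# Trees which decide the zero set of a polynomial, and exponents
-/

set_option autoImplicit false

namespace Pool.Agent.Q140.HYP

open MvPolynomial Pool.Agent.W966.Vg Pool.Agent.H515R2.MMR

section tree

variable {K ι : Type} [Field K] [Fintype ι]

lemma LF.val_congr (f : LF K ι) (x : ι → K) {l : ℕ} {g g' : ℕ → K} (h : ∀ s < l, g s = g' s) :
    f.val x l g = f.val x l g' := by
  unfold LF.val
  congr 1
  exact Finset.sum_congr rfl fun s hs => by rw [h s (Finset.mem_range.mp hs)]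

/-- the tree which does the multiplications `l, …, l + k - 1` and tests the result -/
def build (a b : ℕ → LF K ι) (o : LF K ι) : ℕ → ℕ → NTree K ι
  | _, 0 => .test o .accept .reject
  | l, k + 1 => .mul (a l) (b l) (build a b o (l + 1) k)

lemma build_acc (a b : ℕ → LF K ι) (o : LF K ι) (x : ι → K) (G : ℕ → K) (M : ℕ)
    (hG : ∀ r < M, G r = (a r).val x r G * (b r).val x r G) :
    ∀ (k l : ℕ) (g : ℕ → K), l + k = M → (∀ s < l, g s = G s) →
      ((build a b o l k).Acc x l g k ↔ o.val x M G = 0) := by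
  intro k
  induction k with
  | zero =>
    intro l g hl hg
    obtain rfl : l = M := by omega
    have h1 : o.val x l g = o.val x l G := LF.val_congr o x hg
    show (o.val x l g = 0 ∧ True) ∨ (o.val x l g ≠ 0 ∧ False) ↔ _
    rw [h1]
    tauto
  | succ k ih =>
    intro l g hl hg
    show (0 < k + 1 ∧ (build a b o (l + 1) k).Acc x (l + 1)
      (Function.update g l ((a l).val x l g * (b l).val x l g)) (k + 1 - 1)) ↔ _
    rw [Nat.add_sub_cancel]
    have h1 := ih (l + 1) (Function.update g l ((a l).val x l g * (b l).val x l g)) (by omega)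
      (fun s hs => by
        rcases Nat.lt_succ_iff_lt_or_eq.mp hs with h1 | rfl
        · rw [Function.update_of_ne (by omega), hg s h1]
        · rw [Function.update_self, hG s (by omega), LF.val_congr (a s) x hg,
            LF.val_congr (b s) x hg])
    rw [h1]
    exact ⟨fun h => h.2, fun h => ⟨Nat.succ_pos k, h⟩⟩

lemma eval_LF (f : LF K ι) (x : ι → K) (l : ℕ) (g : ℕ → MvPolynomial ι K) :
    eval x (f.val X l g) = f.val x l fun s => eval x (g s) := by
  unfold LF.val
  simp only [map_add, map_sum, map_mul, MvPolynomial.algebraMap_eq, eval_C, eval_X,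
    Algebra.algebraMap_self, RingHom.id_apply]

/-- **Straight-line programs give trees.** -/
theorem tree_of_nscomp {M : ℕ} {f : MvPolynomial ι K} (h : NSComp K ι Unit M fun _ => f) :
    ∃ t : NTree K ι, ∀ x, t.Accepts x M ↔ eval x f = 0 := by
  obtain ⟨a, b, o, g, hg, ho⟩ := h
  refine ⟨build a b (o ()) 0 M, fun x => ?_⟩
  have h1 := build_acc a b (o ()) x (fun s => eval x (g s)) M (fun r hr => by
    show eval x (g r) = _
    conv_lhs => rw [hg r hr]
    rw [map_mul, eval_LF, eval_LF]) M 0 0 (by omega) (fun s hs => absurd hs (Nat.not_lt_zero s))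
  show (build a b (o ()) 0 M).Acc x 0 0 M ↔ _
  rw [h1, ← eval_LF, ← ho ()]

/-- Exact decision. -/
lemma decides_of_exact [IsAlgClosed K] {t : NTree K ι} {L : ℕ} {f : MvPolynomial ι K}
    (hf : f ≠ 0) (h : ∀ x, t.Accepts x L ↔ eval x f = 0) : Decides t L f :=
  ⟨⟨1, isRelPrime_one_right, fun x hx _ => (h x).mpr hx⟩, f, hf, fun x hx => (h x).mp hx⟩

end tree

section upper

variable {n r : ℕ}

/-- Trilinear algorithms are computations. -/
lemma nscomp_of_rank (h : HasRank n r) :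
    NSComp ℂ (Fin 3 × Fin n × Fin n) Unit (2 * r) fun _ => tr3 ℂ n := by
  classical
  obtain ⟨α, β, γ, H⟩ := h
  let A : ℕ → Fin n × Fin n → ℂ := fun s p => if h : s < r then α ⟨s, h⟩ p.1 p.2 else 0
  let B : ℕ → Fin n × Fin n → ℂ := fun s p => if h : s < r then β ⟨s, h⟩ p.1 p.2 else 0
  let C' : ℕ → Fin n × Fin n → ℂ := fun s p => if h : s < r then γ ⟨s, h⟩ p.1 p.2 else 0
  let lf : Fin 3 → (Fin n × Fin n → ℂ) → LF ℂ (Fin 3 × Fin n × Fin n) := fun s c =>
    ⟨0, fun v => if v.1 = s then c v.2 else 0, 0⟩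
  let P : Fin 3 → (Fin n × Fin n → ℂ) → MvPolynomial (Fin 3 × Fin n × Fin n) ℂ := fun s c =>
    ∑ p, MvPolynomial.C (c p) * X (s, p)
  have hlf : ∀ s c l (g : ℕ → MvPolynomial (Fin 3 × Fin n × Fin n) ℂ),
      (lf s c).val X l g = P s c := by
    intro s c l g
    unfold LF.val
    simp only [lf, P, map_zero, zero_add, Pi.zero_apply, zero_mul, Finset.sum_const_zero, add_zero,
      MvPolynomial.algebraMap_eq]
    rw [Fintype.sum_prod_type, Finset.sum_eq_single s]
    · simp
    · intro b _ hb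
      refine Finset.sum_eq_zero fun p _ => ?_
      simp [hb]
    · simp
  -- the results: first `A_t B_t`, then the product with `C_t`
  let g : ℕ → MvPolynomial (Fin 3 × Fin n × Fin n) ℂ := fun s =>
    if s < r then P 0 (A s) * P 1 (B s) else P 0 (A (s - r)) * P 1 (B (s - r)) * P 2 (C' (s - r))
  refine ⟨fun s => if s < r then lf 0 (A s) else ⟨0, 0, Pi.single (s - r) 1⟩,
    fun s => if s < r then lf 1 (B s) else lf 2 (C' (s - r)),
    fun _ => ⟨0, 0, fun s => if r ≤ s then 1 else 0⟩, g, fun s hs => ?_, fun _ => ?_⟩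
  · by_cases h : s < r
    · simp only [if_pos h, hlf, g]
    · simp only [if_neg h, hlf]
      have h1 : (⟨0, 0, Pi.single (s - r) 1⟩ : LF ℂ (Fin 3 × Fin n × Fin n)).val X s g =
          g (s - r) := by
        unfold LF.val
        simp only [map_zero, zero_add, Pi.zero_apply, zero_mul, Finset.sum_const_zero]
        rw [Finset.sum_eq_single_of_mem (s - r) (Finset.mem_range.mpr (by omega))]
        · rw [Pi.single_eq_same, map_one, one_mul]
        · intro u _ hu
          rw [Pi.single_eq_of_ne hu, map_zero, zero_mul]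
      rw [h1]
      simp only [g, if_neg h, if_pos (show s - r < r by omega)]
  · have h1 : (⟨0, 0, fun s => if r ≤ s then 1 else 0⟩ : LF ℂ (Fin 3 × Fin n × Fin n)).val X
        (2 * r) g = ∑ t : Fin r, P 0 (A t) * P 1 (B t) * P 2 (C' t) := by
      unfold LF.val
      simp only [map_zero, zero_add, Pi.zero_apply, zero_mul, Finset.sum_const_zero]
      rw [two_mul, Finset.sum_range_add]
      rw [Finset.sum_eq_zero fun s hs => ?_, zero_add, Finset.sum_range]
      · refine Finset.sum_congr rfl fun t _ => ?_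
        simp only [g, if_pos (Nat.le_add_right r t), map_one, one_mul,
          if_neg (show ¬ (r + (t : ℕ) < r) by omega), Nat.add_sub_cancel_left]
      · have := Finset.mem_range.mp hs
        rw [if_neg (by omega), map_zero, zero_mul]
    show tr3 ℂ n = _
    rw [h1]
    have hA : ∀ t : Fin r, ∀ p, A t p = α t p.1 p.2 := fun t p => dif_pos t.2
    have hB : ∀ t : Fin r, ∀ p, B t p = β t p.1 p.2 := fun t p => dif_pos t.2
    have hC : ∀ t : Fin r, ∀ p, C' t p = γ t p.1 p.2 := fun t p => dif_pos t.2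
    have h2 : ∀ t : Fin r, P 0 (A t) * P 1 (B t) * P 2 (C' t) =
        ∑ p : Fin n × Fin n, ∑ q : Fin n × Fin n, ∑ u : Fin n × Fin n,
          MvPolynomial.C (α t p.1 p.2 * β t q.1 q.2 * γ t u.1 u.2) *
          (X (0, p) * X (1, q) * X (2, u)) := by
      intro t
      simp only [P]
      rw [Finset.sum_mul_sum, Finset.sum_mul]
      refine Finset.sum_congr rfl fun p _ => ?_
      rw [Finset.sum_mul]
      refine Finset.sum_congr rfl fun q _ => ?_
      rw [Finset.mul_sum]
      refine Finset.sum_congr rfl fun u _ => ?_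
      rw [hA, hB, hC, MvPolynomial.C_mul, MvPolynomial.C_mul]
      ring
    simp only [h2]
    rw [Finset.sum_comm]
    have h3 : ∀ p : Fin n × Fin n, ∑ t : Fin r, ∑ q : Fin n × Fin n, ∑ u : Fin n × Fin n,
        MvPolynomial.C (α t p.1 p.2 * β t q.1 q.2 * γ t u.1 u.2) *
          (X (0, p) * X (1, q) * X (2, u) : MvPolynomial (Fin 3 × Fin n × Fin n) ℂ) =
        ∑ q : Fin n × Fin n, ∑ u : Fin n × Fin n, (if p.2 = q.1 ∧ q.2 = u.1 ∧ u.2 = p.1 then 1
          else 0) * (X (0, p) * X (1, q) * X (2, u)) := by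
      intro p
      rw [Finset.sum_comm]
      refine Finset.sum_congr rfl fun q _ => ?_
      rw [Finset.sum_comm]
      refine Finset.sum_congr rfl fun u _ => ?_
      rw [← Finset.sum_mul, ← map_sum, ← H]
      split_ifs
      · rw [map_one]
      · rw [map_zero]
    rw [Finset.sum_congr rfl fun p _ => h3 p]
    simp only [tr3, Fintype.sum_prod_type]
    refine Finset.sum_congr rfl fun i _ => Finset.sum_congr rfl fun j _ => ?_
    symm
    rw [Finset.sum_eq_single j]
    · refine Finset.sum_congr rfl fun k _ => ?_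
      rw [Finset.sum_eq_single k, Finset.sum_eq_single i]
      · rw [if_pos ⟨rfl, rfl, rfl⟩, one_mul]
      · intro l _ hl
        rw [if_neg fun h => hl h.2.2, zero_mul]
      · intro h; exact absurd (Finset.mem_univ i) h
      · intro k' _ hk
        refine Finset.sum_eq_zero fun l _ => ?_
        rw [if_neg fun h => hk h.2.1.symm, zero_mul]
      · intro h; exact absurd (Finset.mem_univ k) h
    · intro j' _ hj
      refine Finset.sum_eq_zero fun k _ => Finset.sum_eq_zero fun k' _ =>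
        Finset.sum_eq_zero fun l _ => ?_
      rw [if_neg fun h => hj h.1.symm, zero_mul]
    · intro h; exact absurd (Finset.mem_univ j) h

/-- Trees for `tr (A * B * C) = 0`. -/
theorem tree_upper (n : ℕ) : ∃ t : NTree ℂ (Fin 3 × Fin n × Fin n),
    ∀ x, t.Accepts x (2 * rk n) ↔ eval x (tr3 ℂ n) = 0 :=
  tree_of_nscomp (nscomp_of_rank (hasRank_rk n))

end upper

section exponent

lemma tr3_ne_zero {K : Type} [Field K] {n : ℕ} (hn : 0 < n) : tr3 K n ≠ 0 := by
  let i : Fin n := ⟨0, hn⟩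
  refine ne_zero_of_tens (x := (i, i)) (y := (i, i)) (z := (i, i)) (ix := fun p => (0, p))
    (iy := fun p => (1, p)) (iz := fun p => (2, p)) ?_
  rw [tens_tr3]
  show (1 : K) * mmT K n (i, i) (i, i) (i, i) ≠ 0
  rw [mmT_diag, one_mul]
  exact one_ne_zero

/-- comparison of a power with a bound -/
lemma omega_le_of_bound {τ c₁ c₂ : ℝ} (hτ : 0 ≤ τ) (H : ∀ N : ℕ, ∃ n : ℕ, N ≤ n ∧
    (n : ℝ) ^ omega ≤ c₁ * (n : ℝ) ^ τ + c₂) : omega ≤ τ := by
  by_contra hcon
  push Not at hcon
  have t1 := (tendsto_rpow_atTop (y := omega - τ) (by linarith)).comp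
    (tendsto_natCast_atTop_atTop (R := ℝ))
  obtain ⟨N, hN⟩ := ((t1.eventually (Filter.eventually_gt_atTop (|c₁| + |c₂|))).and
    (Filter.eventually_ge_atTop 1)).exists_forall_of_atTop
  obtain ⟨n, hn, h1⟩ := H N
  obtain ⟨g1, g2⟩ := hN n hn
  simp only [Function.comp] at g1
  have hn1 : (1 : ℝ) ≤ n := by exact_mod_cast g2
  have hn0 : (0 : ℝ) < n := by linarith
  have h2 : (n : ℝ) ^ omega = (n : ℝ) ^ (omega - τ) * (n : ℝ) ^ τ := by
    rw [← Real.rpow_add hn0]; congr 1; ring
  have h3 : 1 ≤ (n : ℝ) ^ τ := Real.one_le_rpow hn1 hτ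
  have h4 : c₁ * (n : ℝ) ^ τ + c₂ ≤ (|c₁| + |c₂|) * (n : ℝ) ^ τ := by
    have h5 : c₁ * (n : ℝ) ^ τ ≤ |c₁| * (n : ℝ) ^ τ :=
      mul_le_mul_of_nonneg_right (le_abs_self _) (by positivity)
    have h6 : c₂ ≤ |c₂| * (n : ℝ) ^ τ := (le_abs_self _).trans
      (le_mul_of_one_le_right (abs_nonneg _) h3)
    linarith
  have h5 := mul_lt_mul_of_pos_right g1 (show 0 < (n : ℝ) ^ τ by positivity)
  linarith

/-- **The exponent of the nondeterministic decision of `tr (A * B * C) = 0`.** -/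
theorem exponent_tr3 :
    sInf {τ : ℝ | ∃ c : ℝ, ∀ n : ℕ, ∃ (L : ℕ) (t : NTree ℂ (Fin 3 × Fin n × Fin n)),
      (∀ x, t.Accepts x L ↔ eval x (tr3 ℂ n) = 0) ∧ (L : ℝ) ≤ c * (n : ℝ) ^ τ} = omega := by
  have hsub : {τ : ℝ | ∃ C : ℝ, ∀ n : ℕ, (rk n : ℝ) ≤ C * (n : ℝ) ^ τ} ⊆
      {τ : ℝ | ∃ c : ℝ, ∀ n : ℕ, ∃ (L : ℕ) (t : NTree ℂ (Fin 3 × Fin n × Fin n)),
        (∀ x, t.Accepts x L ↔ eval x (tr3 ℂ n) = 0) ∧ (L : ℝ) ≤ c * (n : ℝ) ^ τ} := by
    rintro τ ⟨C, hC⟩
    refine ⟨2 * C, fun n => ?_⟩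
    obtain ⟨t, ht⟩ := tree_upper n
    refine ⟨2 * rk n, t, ht, ?_⟩
    push_cast
    have := hC n
    linarith
  have hlow : ∀ τ ∈ {τ : ℝ | ∃ c : ℝ, ∀ n : ℕ, ∃ (L : ℕ) (t : NTree ℂ (Fin 3 × Fin n × Fin n)),
      (∀ x, t.Accepts x L ↔ eval x (tr3 ℂ n) = 0) ∧ (L : ℝ) ≤ c * (n : ℝ) ^ τ}, omega ≤ τ := by
    rintro τ ⟨c, hc⟩
    have key : ∀ n : ℕ, 0 < n → (n : ℝ) ^ omega ≤ 54 * c * (n : ℝ) ^ τ + 180 := by
      intro n hn
      obtain ⟨L, t, h1, h2⟩ := hc n
      have h3 := tr3_lower hn t L (decides_of_exact (tr3_ne_zero hn) h1)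
      nlinarith
    rcases le_or_gt 0 τ with hτ | hτ
    · exact omega_le_of_bound hτ fun N => ⟨N + 1, Nat.le_succ N, key (N + 1) (Nat.succ_pos N)⟩
    · -- a negative exponent is impossible, by comparison with the exponent `0`
      have h0 : omega ≤ 0 := omega_le_of_bound le_rfl (c₁ := 54 * |c|) (c₂ := 180) fun N => by
        refine ⟨N + 1, Nat.le_succ N, (key (N + 1) (Nat.succ_pos N)).trans ?_⟩
        have h1 : (1 : ℝ) ≤ ((N + 1 : ℕ) : ℝ) := by exact_mod_cast Nat.succ_pos N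
        have h2 : (((N + 1 : ℕ) : ℝ)) ^ τ ≤ 1 := Real.rpow_le_one_of_one_le_of_nonpos h1 hτ.le
        have h3 : 0 ≤ (((N + 1 : ℕ) : ℝ)) ^ τ := by positivity
        rw [Real.rpow_zero]
        have h4 : c * (((N + 1 : ℕ) : ℝ)) ^ τ ≤ |c| * 1 :=
          (mul_le_mul_of_nonneg_right (le_abs_self c) h3).trans
            (mul_le_mul_of_nonneg_left h2 (abs_nonneg c))
        linarith
      have := Pool.Agent.Y538.Par.two_le_omega
      linarith
  refine le_antisymm ?_ ?_
  · exact csInf_le_csInf ⟨omega, hlow⟩ omega_set_nonempty hsub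
  · exact le_csInf (omega_set_nonempty.mono hsub) hlow

end exponent

end Pool.Agent.Q140.HYP
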